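import Pool.Agent.Helper87.MD.Goals

/-!
# MD-CNT: the residues for one `θ` and one `q`
-/

set_option autoImplicit false

open Finset
open scoped Classical

namespace Pool.Agent.Helper34.MD

open Pool.Agent.Helper98.Lang Pool.Agent.Helper87.MD

/-- At most `g` of the numbers `b < g d'` satisfy `b q' ≡ P mod d'`. -/
theorem fib (g d' q' : ℕ) (hc : Nat.Coprime q' d') (P : ℤ) (s : Finset ℕ)
    (hs : ∀ b ∈ s, b < g * d' ∧ ∃ p : ℤ, (b : ℤ) * q' - p * d' = P) : s.card ≤ g := by
  have hinj : Set.InjOn (fun b : ℕ => b / d') s := by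
    intro b hb b' hb' h
    obtain ⟨_, p, hp⟩ := hs b hb
    obtain ⟨_, p', hp'⟩ := hs b' hb'
    have h1 : (d' : ℤ) ∣ ((b : ℤ) - b') * q' := ⟨p - p', by linear_combination hp - hp'⟩
    have h2 : IsCoprime (d' : ℤ) (q' : ℤ) := (Nat.isCoprime_iff_coprime.2 hc).symm
    have h3 : (d' : ℤ) ∣ (b : ℤ) - b' := h2.dvd_of_dvd_mul_right h1
    have h4 : b' % d' = b % d' := Nat.modEq_iff_dvd.2 h3
    have h5 := Nat.div_add_mod b d'
    have h6 := Nat.div_add_mod b' d'
    simp only at h
    rw [← h5, ← h6, h, h4]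
  have := Finset.card_le_card_of_injOn (t := range g) (fun b : ℕ => b / d')
    (fun b hb => by
      have hb' := (hs b hb).1
      simp only [Finset.coe_range, Set.mem_Iio]
      exact Nat.div_lt_of_lt_mul (by rwa [mul_comm] at hb')) hinj
  simpa using this

theorem mdCNT : CntStmt := by
  intro θ c ε d q hc hd hq
  obtain ⟨g, d', q', hg0, hd', hq', hcop, hgcd, hdiv, hqiv⟩ : ∃ g d' q' : ℕ, 0 < g ∧ d = g * d' ∧
      q = g * q' ∧ Nat.Coprime q' d' ∧ Nat.gcd d q = g ∧ d / g = d' ∧ q / g = q' := by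
    have h0 : 0 < Nat.gcd d q := Nat.gcd_pos_of_pos_left q hd
    exact ⟨Nat.gcd d q, d / Nat.gcd d q, q / Nat.gcd d q, h0,
      (Nat.mul_div_cancel' (Nat.gcd_dvd_left d q)).symm,
      (Nat.mul_div_cancel' (Nat.gcd_dvd_right d q)).symm,
      (Nat.coprime_div_gcd_div_gcd h0).symm, rfl, rfl, rfl⟩
  have hd0 : 0 < d' := by
    rcases Nat.eq_zero_or_pos d' with h | h
    · rw [h, mul_zero] at hd'; omega
    · exact h
  have hq0 : 0 < q' := by
    rcases Nat.eq_zero_or_pos q' with h | h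
    · rw [h, mul_zero] at hq'; omega
    · exact h
  have hL : 0 < LL ε q := by
    unfold LL
    apply Real.rpow_pos_of_pos
    apply Real.log_pos
    exact_mod_cast (by omega : 1 < q)
  have hgR : (0 : ℝ) < g := by exact_mod_cast hg0
  have hdR0 : (0 : ℝ) < d' := by exact_mod_cast hd0
  have hqR0 : (0 : ℝ) < q' := by exact_mod_cast hq0
  have hqR1 : (0 : ℝ) < q := by exact_mod_cast (by omega : 0 < q)
  have hdR : (d : ℝ) = g * d' := by exact_mod_cast hd'
  have hqR : (q : ℝ) = g * q' := by exact_mod_cast hq'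
  have hE : et c ε d q = c * d' / (q * LL ε q) := by
    unfold et
    rw [hgcd, hdiv]
  rw [hgcd, hqiv]
  generalize LL ε q = L at *
  generalize et c ε d q = E at *
  have hE0 : 0 < E := by
    rw [hE]; positivity
  have hgE : (g : ℝ) * E = c * d / (q * L) := by
    rw [hE, hdR]; ring
  have key : ∀ (b : ℕ) (p : ℤ), |(θ + b) / d - (p : ℝ) / q| ≤ c / ((q : ℝ) ^ 2 * L) →
      |θ * q' + (((b : ℤ) * q' - p * d' : ℤ) : ℝ)| ≤ E := by
    intro b p h
    have e1 : θ * q' + (((b : ℤ) * q' - p * d' : ℤ) : ℝ) =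
        (d' * q) * ((θ + b) / d - (p : ℝ) / q) := by
      push_cast
      rw [hdR, hqR]
      field_simp
      ring
    rw [e1, abs_mul, abs_of_pos (by positivity : (0 : ℝ) < d' * q)]
    refine (mul_le_mul_of_nonneg_left h (by positivity)).trans (le_of_eq ?_)
    rw [hE]
    field_simp
  have hcard : ((range d).filter (fun b : ℕ => ∃ p : ℤ,
      |(θ + b) / d - (p : ℝ) / q| ≤ c / ((q : ℝ) ^ 2 * L))).card ≤
      g * (Icc ⌈-(θ * q') - E⌉ ⌊-(θ * q') + E⌋).card := by
    refine Finset.card_le_mul_card_image_of_maps_to (f := fun b : ℕ =>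
      if h : ∃ p : ℤ, |(θ + b) / d - (p : ℝ) / q| ≤ c / ((q : ℝ) ^ 2 * L) then
        (b : ℤ) * q' - h.choose * d' else 0) ?_ g ?_
    · intro b hb
      have h := (Finset.mem_filter.1 hb).2
      simp only [dif_pos h]
      have h2 := abs_le.1 (key b h.choose h.choose_spec)
      rw [Finset.mem_Icc]
      constructor
      · apply Int.ceil_le.2
        linarith [h2.1]
      · apply Int.le_floor.2
        linarith [h2.2]
    · intro P _
      refine fib g d' q' hcop P _ fun b hb => ?_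
      have hb1 := Finset.mem_filter.1 hb
      have hb2 := Finset.mem_filter.1 hb1.1
      refine ⟨by rw [← hd']; exact Finset.mem_range.1 hb2.1, ?_⟩
      have hb3 := hb1.2
      simp only [dif_pos hb2.2] at hb3
      exact ⟨_, hb3⟩
  by_cases hE2 : E < 1 / 2
  · -- at most one integer
    have h1 : (Icc ⌈-(θ * q') - E⌉ ⌊-(θ * q') + E⌋).card ≤ 1 := by
      apply Finset.card_le_one.2
      intro P hP P' hP'
      rw [Finset.mem_Icc, Int.ceil_le, Int.le_floor] at hP hP'
      have h2 : (P : ℝ) - P' < 1 := by linarith [hP.2, hP'.1]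
      have h3 : (P' : ℝ) - P < 1 := by linarith [hP'.2, hP.1]
      have h4 : P - P' < 1 := by exact_mod_cast h2
      have h5 : P' - P < 1 := by exact_mod_cast h3
      omega
    by_cases hn : nd (θ * q') ≤ E
    · rw [if_pos ⟨hE2, hn⟩, mul_one]
      have h2 : ((range d).filter (fun b : ℕ => ∃ p : ℤ,
          |(θ + b) / d - (p : ℝ) / q| ≤ c / ((q : ℝ) ^ 2 * L))).card ≤ g :=
        hcard.trans (by nlinarith)
      have h3 : (((range d).filter (fun b : ℕ => ∃ p : ℤ,
          |(θ + b) / d - (p : ℝ) / q| ≤ c / ((q : ℝ) ^ 2 * L))).card : ℝ) ≤ g := by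
        exact_mod_cast h2
      have h4 : (0 : ℝ) ≤ 4 * c * d / (q * L) := by positivity
      linarith
    · have h2 : (range d).filter (fun b : ℕ => ∃ p : ℤ,
          |(θ + b) / d - (p : ℝ) / q| ≤ c / ((q : ℝ) ^ 2 * L)) = ∅ := by
        apply Finset.filter_eq_empty_iff.2
        rintro b _ ⟨p, hp⟩
        apply hn
        have h3 := key b p hp
        refine le_trans ?_ h3
        have h4 := round_le (θ * q') (-((b : ℤ) * q' - p * d'))
        unfold nd
        refine h4.trans (le_of_eq ?_)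
        congr 1
        push_cast
        ring
      rw [h2, Finset.card_empty, if_neg (fun h => hn h.2), mul_zero, add_zero]
      simp only [Nat.cast_zero]
      positivity
  · push Not at hE2
    have h1 : ((Icc ⌈-(θ * q') - E⌉ ⌊-(θ * q') + E⌋).card : ℝ) ≤ 2 * E + 1 := by
      rw [Int.card_Icc]
      rcases le_or_gt 0 (⌊-(θ * q') + E⌋ + 1 - ⌈-(θ * q') - E⌉) with h | h
      · have h2 : (((⌊-(θ * q') + E⌋ + 1 - ⌈-(θ * q') - E⌉).toNat : ℤ) : ℝ) =
            ((⌊-(θ * q') + E⌋ + 1 - ⌈-(θ * q') - E⌉ : ℤ) : ℝ) := by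
          rw [Int.toNat_of_nonneg h]
        rw [Int.cast_natCast] at h2
        rw [h2]
        push_cast
        have h3 := Int.floor_le (-(θ * q') + E)
        have h4 := Int.le_ceil (-(θ * q') - E)
        linarith
      · rw [Int.toNat_of_nonpos h.le]
        simp only [Nat.cast_zero]
        linarith
    have h2 : (((range d).filter (fun b : ℕ => ∃ p : ℤ,
        |(θ + b) / d - (p : ℝ) / q| ≤ c / ((q : ℝ) ^ 2 * L))).card : ℝ) ≤
        g * ((Icc ⌈-(θ * q') - E⌉ ⌊-(θ * q') + E⌋).card : ℝ) := by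
      exact_mod_cast hcard
    have h3 : (g : ℝ) * ((Icc ⌈-(θ * q') - E⌉ ⌊-(θ * q') + E⌋).card : ℝ) ≤ g * (4 * E) :=
      mul_le_mul_of_nonneg_left (h1.trans (by linarith)) hgR.le
    have h4 : (g : ℝ) * (4 * E) = 4 * c * d / (q * L) := by
      linear_combination 4 * hgE
    have h5 : (0 : ℝ) ≤ (g : ℝ) * (if E < 1 / 2 ∧ nd (θ * (q' : ℝ)) ≤ E then 1 else 0) := by
      apply mul_nonneg hgR.le
      split_ifs <;> norm_num
    linarith

end Pool.Agent.Helper34.MD
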